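import Pool.Agent.Results.MP_038c09_al.AssocEventual

/-! The earlier hand-in (associative varieties only), derived from the stronger one. -/

namespace Pool.Agent.Retired.MP_038c09_al.AssocIdentities

open Pool.Agent.Lib.MP_038c09_al

/-- If `I` implies associativity, any two bracketings of a word agree modulo `I`. -/
theorem bracket {F X : Type} [Field F] {I : Set (FA F ℕ)} (hA : asc F ∈ idealGen (TVal I ℕ))
    (s t : FreeMagma X) (h : leaves s = leaves t) : mon F s - mon F t ∈ idealGen (TVal I X) := by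
  let L := As.Lrep (idealGen (TVal I X)) (isIdeal_idealGen _) (As.assoc_mem hA)
  have key : ∀ w : FreeMagma X,
      L (mon F w) = ((leaves w).map fun x => L (mon F (.of x))).prod := fun w => by
    induction w with
    | ih1 x => simp [leaves]
    | ih2 s t hs ht => rw [mon_mul, map_mul, hs, ht, EvAs.leaves_mul, List.map_append, List.prod_append]
  exact As.Lrep_eq_zero.1 (show L _ = 0 by rw [map_sub, key, key, h, sub_self])

theorem result (F : Type) [Field F] [CharZero F] (I : Set (FA F ℕ))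
    (hA : asc F ∈ idealGen (TVal I ℕ)) :
    List.TFAE [IsRFDVariety I,
      ∃ n, 1 ≤ n ∧ ∀ x y z t : FA F ℕ,
        (x * ·)^[n] (cm n x y * (x * ·)^[n] (cm n x z)) ∈ idealGen (TVal I ℕ) ∧
        (· * x)^[n] (cm n x y * (x * ·)^[n] (cm n x z)) ∈ idealGen (TVal I ℕ) ∧
        cm n x y * (x * ·)^[n] ((· * x)^[n] (cm 1 x z)) * cm n x t ∈ idealGen (TVal I ℕ),
      ¬ Sat I (Pat F ![1, 2, 0]) ∧ ¬ Sat I (Pat F ![0, 1, 2]) ∧
        ¬ Sat I (Pat F ![1, 2, 1]) ∧ ¬ Sat I (Pat F ![0, 1, 1, 1, 0])] :=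
  Pool.Agent.Results.MP_038c09_al.AssocEventual.result F I
    fun _ => ⟨0, fun s t h _ => bracket hA s t h⟩

end Pool.Agent.Retired.MP_038c09_al.AssocIdentities
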