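import Pool.Agent.Lib.MP_038c09_al.AsIdent

namespace Pool.Agent.Results.MP_038c09_al.Associative

open Pool.Agent.Lib.MP_038c09_al

/-- Classification of the RFD-varieties of associative algebras in characteristic zero: a variety
in which the associative law holds is an RFD-variety if and only if it contains none of four
algebras of upper triangular matrices. -/
theorem result (F : Type) [Field F] [CharZero F] (I : Set (FA F ℕ))
    (hA : asc F ∈ idealGen (TVal I ℕ)) :
    IsRFDVariety I ↔ ¬ Sat I (Pat F ![1, 2, 0]) ∧ ¬ Sat I (Pat F ![0, 1, 2]) ∧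
      ¬ Sat I (Pat F ![1, 2, 1]) ∧ ¬ Sat I (Pat F ![0, 1, 1, 1, 0]) :=
  As.classification hA

end Pool.Agent.Results.MP_038c09_al.Associative
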