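import Pool.Agent.Lib.MP_038c09_al.N2Main

namespace Pool.Agent.Results.MP_038c09_al.LieN2A

open Pool.Agent.Lib.MP_038c09_al

/-- Classification of the RFD-varieties of Lie algebras whose derived algebra is nilpotent of
class at most two, in characteristic zero: such a variety is an RFD-variety if and only if it
misses at least one member of a one-parameter family of four-dimensional matrix Lie algebras. -/
theorem result (F : Type) [Field F] [CharZero F] (I : Set (FA F ℕ))
    (hA : acm F ∈ idealGen (TVal I ℕ)) (hJ : jac F ∈ idealGen (TVal I ℕ))
    (hN : n2a F ∈ idealGen (TVal I ℕ)) :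
    IsRFDVariety I ↔ ∃ c : F, ¬ SatL I (Tri c) :=
  N2.main hA hJ hN

end Pool.Agent.Results.MP_038c09_al.LieN2A
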